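import Mathlib
import Pool.Agent.Lib.MP_1f562f_co.T.Main

/-!
# MP_1f562f_co: the Erdős–Sauer conjecture for `p = r + 1` and all large `r`

For every `A` there is `r₀` such that for all `r ≥ r₀`, all `n` and every `r`-graph `H` on `n` vertices there is an
admissible partition `P` of `H` (parts: single edges or full edge sets of copies of `K_{r+1}^r`) with
`|P| + A * #(parts with more than one edge) ≤ α(n, r+1, r)`. For `A = 0` this is the bound of the conjecture.

Proof idea. Let `TT` be the family of the copies of `K_{r+1}^r`, `F` a maximum family of pairwise edge-disjoint copies,
`ν = |F|`. It suffices to meet all copies by at most `(r - A) ν` edges (a Tuza type inequality). The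
`(r+1) ν` edges of the members of `F` do this; a structured random subset `D` of them (density `4 (A+1)/(r+1)`, given by a
random colouring of the vertices by `ZMod m`, every copy has boundedly many edges in it) is dropped. Copies that meet only
one member of `F` and are missed are met by half as many new edges. The copies that meet `t ≥ 2` members are few
(at most `L q^(1-t) ν`) after meeting those through popular edges: this is shown with the independent
set theorem of Ajtai, Komlós and Szemerédi in a sparse random subfamily of `F`, and a greedy argument.
-/

set_option autoImplicit false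

namespace Pool.Agent.Results.MP_1f562f_co.CodimensionOneLargeR

open Finset

theorem result :
    ∀ A : ℕ, ∃ r₀ : ℕ, ∀ r : ℕ, r₀ ≤ r → ∀ n : ℕ, ∀ H : Finset (Finset (Fin n)),
      (∀ e ∈ H, e.card = r) →
        ∃ P : Finpartition H,
          (∀ B ∈ P.parts, B.card = 1 ∨
            ∃ S : Finset (Fin n), S.card = r + 1 ∧ B = S.powersetCard r) ∧
          ∃ G : Finset (Finset (Fin n)),
            (∀ e ∈ G, e.card = r) ∧
            (∀ S : Finset (Fin n), S.card = r + 1 → ¬ S.powersetCard r ⊆ G) ∧
            (∀ G' : Finset (Finset (Fin n)), (∀ e ∈ G', e.card = r) →
              (∀ S : Finset (Fin n), S.card = r + 1 → ¬ S.powersetCard r ⊆ G') →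
                G'.card ≤ G.card) ∧
            P.parts.card + A * (P.parts.filter (fun B => B.card ≠ 1)).card ≤ G.card :=
  fun A => TZ.es_main A

end Pool.Agent.Results.MP_1f562f_co.CodimensionOneLargeR
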