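import Mathlib
import Pool.Agent.Lib.MP_1f562f_co.WMain

/-!
# MP_1f562f_co: the Erdős–Sauer conjecture outside a window of width `O(n^(r-1))`

Fix `3 ≤ r < p` and write `α = α(n,p,r)`, `C = C(p,r)`, `c = r! / (80 r^r C)`, and `N(H)` for the number of
copies of `K_p^r` in `H`.  There is a constant `K` such that for all `n` every `r`-graph `H` on `n` vertices
has an admissible partition (parts: single edges or full edge sets of copies of `K_p^r`) with at most
`α - c max(e(H) - α, N(H) / n^(p-r)) + K n^(r-1)` parts; and the partition has at most `α` parts whenever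
`e(H) ≤ α`, or `e(H) ≥ α + K n^(r-1)`, or `N(H) ≥ K n^(p-1)`.

Proof idea.
* A fractional cover of the copies is rounded to two integral covers (Turán's three colour pattern; a rainbow
  pattern); a mixture of them shows `e(H) - α ≤ (C - 1 - κ) ν*(H)` with a slack `κ = r! / (20 r^r)`.
* Averaging the optimal fractional packings of the subgraphs induced on all sets of `m = δ n` vertices gives a
  fractional packing of `H` with all pair degrees at most `δ`; the loss `α(m) C(n,r)/C(m,r) - α(n)` is
  `O(n^(r-1))` by cloning vertices.
* A nibble with multiplicative loss (a weighted form of the Frankl–Rödl–Pippenger theorem, due to Kahn) rounds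
  it to an integral packing, losing a factor `1 - ε` which is absorbed by the slack.
-/

set_option autoImplicit false

namespace Pool.Agent.Results.MP_1f562f_co.CodimensionOneWindow

open Finset

theorem result :
    ∀ r p : ℕ, 3 ≤ r → r < p → ∃ K : ℝ, 0 < K ∧
      ∀ n : ℕ, ∀ H : Finset (Finset (Fin n)), (∀ e ∈ H, e.card = r) →
        ∃ P : Finpartition H,
          (∀ B ∈ P.parts, B.card = 1 ∨
            ∃ S : Finset (Fin n), S.card = p ∧ B = S.powersetCard r) ∧
          ∃ G : Finset (Finset (Fin n)),
            (∀ e ∈ G, e.card = r) ∧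
            (∀ S : Finset (Fin n), S.card = p → ¬ S.powersetCard r ⊆ G) ∧
            (∀ G' : Finset (Finset (Fin n)), (∀ e ∈ G', e.card = r) →
              (∀ S : Finset (Fin n), S.card = p → ¬ S.powersetCard r ⊆ G') →
                G'.card ≤ G.card) ∧
            (P.parts.card : ℝ) +
                (r.factorial : ℝ) / (80 * (r : ℝ) ^ r * (p.choose r : ℝ)) *
                  max ((H.card : ℝ) - G.card)
                    (((((univ : Finset (Fin n)).powersetCard p).filter
                      (fun S => S.powersetCard r ⊆ H)).card : ℝ) / (n : ℝ) ^ (p - r)) ≤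
              G.card + K * (n : ℝ) ^ (r - 1) ∧
            (H.card ≤ G.card ∨ (G.card : ℝ) + K * (n : ℝ) ^ (r - 1) ≤ H.card ∨
              K * (n : ℝ) ^ (p - 1) ≤
                ((((univ : Finset (Fin n)).powersetCard p).filter
                  (fun S => S.powersetCard r ⊆ H)).card : ℝ) →
              P.parts.card ≤ G.card) := by
  intro r p hr hrp
  obtain ⟨K, hK, hmain⟩ := ES.wmain r p hr hrp
  refine ⟨K, hK, fun n H hH => ?_⟩
  obtain ⟨P, hP, h1, h2⟩ := hmain n H hH
  obtain ⟨G, hG, hGc⟩ := ES.exists_al (n := n) hrp.le
  refine ⟨P, hP, G, hG.1, hG.2, fun G' h3 h4 => ?_, ?_, ?_⟩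
  · rw [hGc]
    exact ES.card_le_al ⟨h3, h4⟩
  · rw [hGc]
    have e1 : ES.kap r / (4 * (p.choose r : ℝ)) =
        (r.factorial : ℝ) / (80 * (r : ℝ) ^ r * (p.choose r : ℝ)) := by
      unfold ES.kap
      rw [div_div]
      congr 1
      ring
    rw [e1] at h1
    exact h1
  · rw [hGc]
    exact h2

end Pool.Agent.Results.MP_1f562f_co.CodimensionOneWindow
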