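import Mathlib
import Pool.Agent.Lib.MP_1f562fU.Main

/-!
The Erdős–Sauer bound for `2 ≤ r < p ≤ 2 r`: for all `r`-graphs without two edge-disjoint copies
of `K_p^r`, and for all `r`-graphs if `T(n,p,r) ≤ 2 (C(p,r) - 1)`.
-/

set_option autoImplicit false

namespace Pool.Agent.Results.MP_1f562f_co.SharedEdges

open Finset ESU

/-- Let `2 ≤ r < p ≤ 2 r`.  (1) If every two copies of `K_p^r` in the `r`-graph `H` share an edge,
then some set of at most `C(p,r) - 1` edges of `H` meets all copies, and `H` satisfies the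
Erdős–Sauer bound.  (2) If some `K_p^r`-free `r`-graph on `n` vertices has at least
`C(n,r) - 2 (C(p,r) - 1)` edges, then all `r`-graphs on `n` vertices satisfy the bound.  (3) In
particular this is so if `m (r - 1) < p` and `m C(⌈n/m⌉, r) ≤ 2 (C(p,r) - 1)` for some `m ≥ 1`, and
(4) for `p = 2 r - 1`, `p = 2 r` and all `n ≤ 2 p - 2`. -/
theorem result (n r p : ℕ) (hr : 2 ≤ r) (hrp : r < p) (hp : p ≤ 2 * r) :
    (∀ H : Finset (Finset (Fin n)), (∀ e ∈ H, e.card = r) →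
      (∀ S S' : Finset (Fin n), S.card = p → S'.card = p → S.powersetCard r ⊆ H →
        S'.powersetCard r ⊆ H → ∃ e : Finset (Fin n), e.card = r ∧ e ⊆ S ∧ e ⊆ S') →
      (∃ D ⊆ H, D.card + 1 ≤ p.choose r ∧
        ∀ S : Finset (Fin n), S.card = p → S.powersetCard r ⊆ H → ∃ e ∈ D, e ⊆ S) ∧
      Bound n r p H) ∧
    (∀ G : Finset (Finset (Fin n)), (∀ e ∈ G, e.card = r) →
      (∀ S : Finset (Fin n), S.card = p → ¬ S.powersetCard r ⊆ G) →
      n.choose r + 2 ≤ G.card + 2 * p.choose r →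
      ∀ H : Finset (Finset (Fin n)), (∀ e ∈ H, e.card = r) → Bound n r p H) ∧
    (∀ m : ℕ, 1 ≤ m → m * (r - 1) < p → m * ((n + m - 1) / m).choose r + 2 ≤ 2 * p.choose r →
      ∀ H : Finset (Finset (Fin n)), (∀ e ∈ H, e.card = r) → Bound n r p H) ∧
    (2 * r ≤ p + 1 → n + 2 ≤ 2 * p →
      ∀ H : Finset (Finset (Fin n)), (∀ e ∈ H, e.card = r) → Bound n r p H) :=
  ⟨fun H hH hsh => ⟨exists_hit hr hrp hp H hsh, bound_of_shared hr hrp hp H hH hsh⟩,
    fun _ hG1 hG2 hG3 H hH => bound_of_free hr hrp hp hG1 hG2 hG3 H hH,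
    fun _ hm hmp hc H hH => bound_of_m hr hrp hp hm hmp hc H hH,
    fun hp' hn H hH => bound_two hr hrp hp hp' hn H hH⟩

end Pool.Agent.Results.MP_1f562f_co.SharedEdges
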