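import Mathlib
import Pool.Agent.Lib.MP_1f562fW.Main

/-!
The Erdős–Sauer bound for all `2 ≤ r < p` and all `n` that are not too large compared with `p`.
-/

set_option autoImplicit false

namespace Pool.Agent.Results.MP_1f562f_co.WideCliques

open Finset

/-- Let `2 ≤ r < p` and let `m ≥ 1` satisfy `m (r - 1) < p` and `m C(⌈n/m⌉, r) < C(p, r)`.  Then
every `r`-graph `H` on `n` vertices has a partition into single edges and full edge sets of copies
of `K_p^r` whose number of parts is at most the number of edges of some `K_p^r`-free `r`-graph on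
`n` vertices. -/
theorem result (n r p m : ℕ) (hr : 2 ≤ r) (hrp : r < p) (hm : 1 ≤ m) (hmp : m * (r - 1) < p)
    (hc : m * ((n + m - 1) / m).choose r < p.choose r) (H : Finset (Finset (Fin n)))
    (hH : ∀ e ∈ H, e.card = r) :
    ∃ P : Finpartition H,
      (∀ B ∈ P.parts, B.card = 1 ∨
        ∃ S : Finset (Fin n), S.card = p ∧ B = S.powersetCard r) ∧
      ∃ G : Finset (Finset (Fin n)),
        (∀ e ∈ G, e.card = r) ∧
        (∀ S : Finset (Fin n), S.card = p → ¬ S.powersetCard r ⊆ G) ∧
        P.parts.card ≤ G.card :=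
  ESW.main n r p m hr hrp hm hmp hc H hH

end Pool.Agent.Results.MP_1f562f_co.WideCliques
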